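import Pool.Agent.Helper35.PI2.St

set_option autoImplicit false

namespace Helper16.PI2

open Helper35.PI Helper35.PI2
open scoped ContDiff Manifold Topology ENNReal BigOperators
open MeasureTheory Set Filter

theorem cda_IS {n : ℕ} {E : Type} [NormedAddCommGroup E] [NormedSpace ℝ E] {g : EE n → E} {x : EE n}
    (h : ContDiffAt ℝ ∞ (fun z : EE n × ℝ => g z.1) (x, (0 : ℝ))) : ContDiffAt ℝ ∞ g x := by
  have h1 : ContDiffAt ℝ ∞ (fun y : EE n => (y, (0 : ℝ))) x := contDiffAt_id.prodMk contDiffAt_const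
  exact ContDiffAt.comp (f := fun y : EE n => (y, (0 : ℝ))) x h h1

theorem cdf_IS {n : ℕ} {E : Type} [NormedAddCommGroup E] [NormedSpace ℝ E] {g : EE n → E} {x : EE n}
    (h : ContDiffAt ℝ ∞ g x) (v : EE n) : ContDiffAt ℝ ∞ (fun y => fderiv ℝ g y v) x :=
  (h.fderiv_right (m := ∞) le_rfl).clm_apply contDiffAt_const

theorem hIS (hSM : StSM) (hFR : StFR) (hNR : StNR) : StIS := by
  intro n N f x hf hLI μ
  have hf' : ContDiffAt ℝ ∞ (fun z : EE n × ℝ => f z.1) (x, (0 : ℝ)) :=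
    ContDiffAt.comp (f := fun z : EE n × ℝ => z.1) (x, (0 : ℝ)) hf contDiffAt_fst
  obtain ⟨-, -, -, -, -, hG, hS, hM, hQ, -⟩ := hSM n N (fun z => f z.1) (x, 0) hf' hLI
  have hG' : ∀ i j, ContDiffAt ℝ ∞ (fun y => (gram f y)⁻¹ i j) x :=
    fun i j => cda_IS (g := fun y => (gram f y)⁻¹ i j) (hG i j)
  have hS' : ∀ i j, ContDiffAt ℝ ∞ (fun y => sff f y i j) x :=
    fun i j => cda_IS (g := fun y => sff f y i j) (hS i j)
  have hM' : ContDiffAt ℝ ∞ (mcv f) x := cda_IS (g := mcv f) hM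
  have hQ' : ContDiffAt ℝ ∞ (nsq f) x := cda_IS (g := nsq f) hQ
  have hD : ∀ i, ContDiffAt ℝ ∞ (fun y => dv1 f y i) x := fun i => cdf_IS hf (ee i)
  have h1 : ∀ k, ContDiffAt ℝ ∞ (fun y => scv f y k) x := by
    intro k
    unfold scv
    refine ContDiffAt.sum fun l _ => ContDiffAt.sum fun m _ => ?_
    exact (hG' l m).mul ((hS' k l).inner ℝ (cdf_IS hM' (ee m)))
  have h2 : ∀ k, ContDiffAt ℝ ∞ (fun y => vcv μ f y k) x := by
    intro k
    unfold vcv
    have h3 : ContDiffAt ℝ ∞ (fun y => 2 * (1 + μ) * nsq f y - ‖mcv f y‖ ^ 2) x :=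
      (contDiffAt_const.mul hQ').sub (hM'.norm_sq ℝ)
    exact (cdf_IS h3 (ee k)).sub (contDiffAt_const.mul (h1 k))
  have h3 : ContDiffAt ℝ ∞ (vfd μ f) x := by
    unfold vfd
    refine ContDiffAt.sum fun k _ => ContDiffAt.sum fun l _ => ?_
    exact ((hG' k l).mul (h2 k)).smul (hD l)
  have h4 : ∀ k, (inner ℝ (vfd μ f x) (dv1 f x k) : ℝ) = vcv μ f x k := by
    intro k
    have hu := (hFR n N f x hLI).2.1
    have hinv : (gram f x)⁻¹ * gram f x = 1 := Matrix.nonsing_inv_mul _ hu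
    have h5 : ∀ j, ∑ l, (gram f x)⁻¹ j l * inner ℝ (dv1 f x l) (dv1 f x k) =
        if j = k then (1 : ℝ) else 0 := by
      intro j
      have := congrFun (congrFun hinv j) k
      rw [Matrix.mul_apply, Matrix.one_apply] at this
      exact this
    unfold vfd
    simp only [sum_inner, real_inner_smul_left]
    have h6 : ∀ j, ∑ l, (gram f x)⁻¹ j l * vcv μ f x j * inner ℝ (dv1 f x l) (dv1 f x k) =
        vcv μ f x j * (if j = k then (1 : ℝ) else 0) := by
      intro j
      rw [← h5 j, Finset.mul_sum]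
      exact Finset.sum_congr rfl fun l _ => by ring
    rw [Finset.sum_congr rfl fun j _ => h6 j]
    simp
  have h5 : vfd μ f x ∈ Submodule.span ℝ (range fun i => dv1 f x i) := by
    unfold vfd
    refine Submodule.sum_mem _ fun k _ => Submodule.sum_mem _ fun l _ => ?_
    exact Submodule.smul_mem _ _ (Submodule.subset_span ⟨l, rfl⟩)
  have h6 : ∀ l, (inner ℝ (mcv f x) (dv1 f x l) : ℝ) = 0 := by
    intro l
    unfold mcv
    simp only [sum_inner, real_inner_smul_left]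
    refine Finset.sum_eq_zero fun i _ => Finset.sum_eq_zero fun j _ => ?_
    unfold sff
    rw [(hNR n N f x hLI).1, mul_zero]
  refine ⟨h1, h2, h3, h4, h5, ?_⟩
  unfold vfd
  simp only [inner_sum, real_inner_smul_right, h6, mul_zero, Finset.sum_const_zero]

end Helper16.PI2
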